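import Pool.Agent.P.MP_0134b7_an.RGGC

namespace Pool.Agent.Results.MP_0134b7_an.RegularExponent

open Set Filter Topology MeasureTheory Pool.Agent.P.MP_0134b7_an

/-- A necessary and sufficient condition, valid for every radical weight, for a function with a
regular Laplace exponent to be a polynomial generator of `L¹(ω)`. -/
theorem result (ω : ℝ → ℝ) (hω : RadicalWeight ω) (f : ℝ → ℂ) (c r : ℝ) (L : ℂ → ℂ)
    (h : Regular f c r L) (p x₀ : ℝ) (hp : Tendsto (rho L) atTop (𝓝 p))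
    (hinj : p = 1 / 2 → InjOn (fun z => lap f (c + z)) (dom r)) (hx : 0 < x₀) (hr : r < x₀)
    (hρ : p < 1 / 2 → ∀ x, x₀ ≤ x → rho L x < 1 / 2) :
    IsPolyGen ω f ↔ 1 / 2 ≤ p ∨ ∀ ε : ℝ, 0 < ε → ¬IntegrableOn
      (fun x => Real.log (ω (ε * kap (rho L) x₀ x)) / (x ^ 2 * kap (rho L) x₀ x)) (Ioi x₀) :=
  hω.regular_iff h hp hinj hx hr hρ

end Pool.Agent.Results.MP_0134b7_an.RegularExponent
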