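import Pool.Agent.P.MP_0134b7_an.ConvC

namespace Pool.Agent.Results.MP_0134b7_an.SmoothGenerators

open Set MeasureTheory Pool.Agent.P.MP_0134b7_an

/-- For a radical weight `ω` and `a > 0`, a function `c t^(a-1) + d t^a + (t^a * g)(t)` with `c ≠ 0`
is a polynomial generator of `L¹(ω)` exactly if the integral of `log ω(t) / t^(1 + a/2)` diverges. -/
theorem result (ω : ℝ → ℝ) (hω : RadicalWeight ω) (a : ℝ) (ha : 0 < a) (c d : ℂ) (hc : c ≠ 0)
    (g f : ℝ → ℂ) (hg : ∀ C : ℝ, MemL1 (fun t => ω t * Real.exp (C * t)) g)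
    (hf : ∀ᵐ t ∂(volume.restrict (Ioi (0 : ℝ))), f t = c * ((t ^ (a - 1) : ℝ) : ℂ) +
      d * ((t ^ a : ℝ) : ℂ) + conv (fun s => ((s ^ a : ℝ) : ℂ)) g t) :
    IsPolyGen ω f ↔ ¬IntegrableOn (fun t => Real.log (ω t) / t ^ (1 + a / 2)) (Ioi 1) :=
  hω.main ha d hc hg hf

end Pool.Agent.Results.MP_0134b7_an.SmoothGenerators
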